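import Pool.Agent.Helper99.TW.ParLt

/-!
# Project TW (MP_e66f84_ag), block CLt: the counting theorem `StmtCountLt`
-/

set_option autoImplicit false

namespace Pool.Agent.Helper99.TW

open Filter Topology Pool.Agent.Helper99.HG Pool.Agent.HG Pool.Agent.TW

variable {k : ℕ} {G : Type}

/-- the levels -/
private theorem dyad99 {n : ℕ} (hn : 2 ≤ n) : ∃ i : ℕ, n ≤ 2 ^ 2 ^ (i + 1) ∧ 2 ^ 2 ^ (i + 1) ≤ n ^ 2 := by
  refine ⟨Nat.log 2 (Nat.log 2 n), ?_, ?_⟩
  · have h1 : n < 2 ^ (Nat.log 2 n + 1) := Nat.lt_pow_succ_log_self (by norm_num) n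
    have h2 : Nat.log 2 n < 2 ^ (Nat.log 2 (Nat.log 2 n) + 1) := Nat.lt_pow_succ_log_self (by norm_num) _
    exact h1.le.trans (Nat.pow_le_pow_right (by norm_num) h2)
  · have h1 : 1 ≤ Nat.log 2 n := (Nat.le_log_iff_pow_le (by norm_num) (by omega)).mpr (by simpa using hn)
    have h2 : 2 ^ Nat.log 2 (Nat.log 2 n) ≤ Nat.log 2 n := Nat.pow_log_le_self 2 (by omega)
    have h3 : 2 ^ Nat.log 2 n ≤ n := Nat.pow_log_le_self 2 (by omega)
    calc 2 ^ 2 ^ (Nat.log 2 (Nat.log 2 n) + 1) = (2 ^ 2 ^ Nat.log 2 (Nat.log 2 n)) ^ 2 := by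
          rw [pow_succ 2 (Nat.log 2 (Nat.log 2 n)), pow_mul]
      _ ≤ (2 ^ Nat.log 2 n) ^ 2 := Nat.pow_le_pow_left (Nat.pow_le_pow_right (by norm_num) h2) 2
      _ ≤ n ^ 2 := Nat.pow_le_pow_left h3 2

/-- the sum over the levels -/
private theorem levels99 {η : ℝ} (hη : 0 < η) : ∃ C : ℝ, 0 < C ∧ ∀ B : ℕ, 3 ≤ B → ∀ I : Finset ℕ, (∀ i ∈ I, B ≤ 2 ^ 2 ^ (i + 1)) →
    ∑ i ∈ I, Real.log ((2 ^ 2 ^ (i + 1) : ℕ) : ℝ) ^ (-η) ≤ C * Real.log B ^ (-(η / 2)) := by
  set r : ℝ := (2 : ℝ) ^ (-(η / 2)) with hr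
  have hr0 : 0 < r := by positivity
  have hr1 : r < 1 := Real.rpow_lt_one_of_one_lt_of_neg (by norm_num) (by linarith)
  refine ⟨(1 - r)⁻¹, inv_pos.mpr (by linarith), fun B hB I hI => ?_⟩
  have hlB := log_ge_one hB
  have hlB0 : 0 < Real.log B := by linarith
  have h1 : ∀ i ∈ I, Real.log ((2 ^ 2 ^ (i + 1) : ℕ) : ℝ) ^ (-η) ≤ Real.log B ^ (-(η / 2)) * r ^ i := by
    intro i hi
    have g1 : Real.log B ≤ Real.log ((2 ^ 2 ^ (i + 1) : ℕ) : ℝ) :=
      Real.log_le_log (by exact_mod_cast (by omega : 0 < B)) (by exact_mod_cast hI i hi)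
    have g2 : (2 : ℝ) ^ i ≤ Real.log ((2 ^ 2 ^ (i + 1) : ℕ) : ℝ) := by
      rw [Nat.cast_pow, Real.log_pow, Nat.cast_ofNat]
      push_cast
      rw [pow_succ]
      have := Real.log_two_gt_d9
      have h3 : (0 : ℝ) < 2 ^ i := by positivity
      nlinarith
    have g3 : 0 < Real.log ((2 ^ 2 ^ (i + 1) : ℕ) : ℝ) := hlB0.trans_le g1
    have e : Real.log ((2 ^ 2 ^ (i + 1) : ℕ) : ℝ) ^ (-η) =
        Real.log ((2 ^ 2 ^ (i + 1) : ℕ) : ℝ) ^ (-(η / 2)) * Real.log ((2 ^ 2 ^ (i + 1) : ℕ) : ℝ) ^ (-(η / 2)) := by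
      rw [← Real.rpow_add g3]
      congr 1
      ring
    rw [e]
    have k1 : Real.log ((2 ^ 2 ^ (i + 1) : ℕ) : ℝ) ^ (-(η / 2)) ≤ Real.log B ^ (-(η / 2)) :=
      Real.rpow_le_rpow_of_nonpos hlB0 g1 (by linarith)
    have k2 : Real.log ((2 ^ 2 ^ (i + 1) : ℕ) : ℝ) ^ (-(η / 2)) ≤ r ^ i := by
      refine (Real.rpow_le_rpow_of_nonpos (by positivity) g2 (by linarith)).trans (le_of_eq ?_)
      rw [hr, ← Real.rpow_natCast (2 : ℝ) i, ← Real.rpow_natCast _ i, ← Real.rpow_mul (by norm_num), ← Real.rpow_mul (by norm_num)]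
      congr 1
      ring
    exact mul_le_mul k1 k2 (by positivity) (by positivity)
  refine (Finset.sum_le_sum h1).trans ?_
  rw [← Finset.mul_sum, mul_comm]
  refine mul_le_mul_of_nonneg_right ?_ (by positivity)
  rw [← tsum_geometric_of_lt_one hr0.le hr1]
  exact (summable_geometric_of_lt_one hr0.le hr1).sum_le_tsum I fun i _ => by positivity

open Classical in
theorem countLt : StmtCountLt := by
  intro k G _ D hS hV hBT j₀ hsp hBTR hTBJ
  obtain ⟨η, C, Y₀, A, hη, hC, hY₀, hA, hlev⟩ := levelLt hS hV hBT hsp hBTR hTBJ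
  obtain ⟨C₁, hC₁, hcnt⟩ := count_le hS
  obtain ⟨C₂, hC₂, hsm⟩ := smooth hS
  obtain ⟨C₄, hC₄, hlv⟩ := levels99 hη
  obtain ⟨η', hη'⟩ : ∃ η' : ℝ, η' = min (η / 2) (3 / 8) := ⟨_, rfl⟩
  have hη'0 : 0 < η' := by
    rw [hη']
    exact lt_min (by positivity) (by norm_num)
  obtain ⟨R, hR⟩ : ∃ R : ℝ, R = max (((A : ℝ) + 1) ^ 2) (4 ^ 8) := ⟨_, rfl⟩
  have hR1 : 1 ≤ R := by
    rw [hR]
    exact le_max_of_le_right (by norm_num)
  have hlY₀ := log_ge_one hY₀
  refine ⟨1 / 8, η', C₁ * Real.log Y₀ ^ η' + C₁ * R ^ η' + 8 * C₂ + C * C₄ + 1, by norm_num, by norm_num, hη'0, by positivity,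
    fun X B hX hB S hSc => ?_⟩
  set F : ℝ := C₁ * Real.log Y₀ ^ η' + C₁ * R ^ η' + 8 * C₂ + C * C₄ + 1 with hF
  have hX0 : (0 : ℝ) < X := by exact_mod_cast (by omega : 0 < X)
  have hlX := log_ge_one hX
  have hlX0 : 0 < Real.log X := by linarith
  have hlB0 : 0 < Real.log B := Real.log_pos (by exact_mod_cast (by omega : 1 < B))
  have hBp : 0 < 1 / Real.log B ^ η' := by positivity
  have hXp : 0 < 1 / Real.log X ^ η' := by positivity
  have hYp : 0 < Real.log Y₀ ^ η' := by positivity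
  have hRp : 0 < R ^ η' := by positivity
  have htriv : (S.card : ℝ) ≤ C₁ * X := hcnt X S fun c hc => (hSc c hc).1
  -- small `B`
  rcases Nat.lt_or_ge B Y₀ with hBY | hBY
  · have g1 : Real.log B ^ η' ≤ Real.log Y₀ ^ η' :=
      Real.rpow_le_rpow hlB0.le (Real.log_le_log (by exact_mod_cast (by omega : 0 < B)) (by exact_mod_cast hBY.le)) hη'0.le
    have g2 : 1 ≤ Real.log Y₀ ^ η' * (1 / Real.log B ^ η') := by
      rw [mul_one_div, le_div_iff₀ (by positivity), one_mul]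
      exact g1
    have g3 : C₁ * Real.log Y₀ ^ η' ≤ F := by
      rw [hF]
      have : 0 < C₁ * R ^ η' := by positivity
      have : 0 < C * C₄ := by positivity
      linarith
    calc (S.card : ℝ) ≤ C₁ * X * 1 := by rw [mul_one]; exact htriv
      _ ≤ C₁ * X * (Real.log Y₀ ^ η' * (1 / Real.log B ^ η')) := mul_le_mul_of_nonneg_left g2 (by positivity)
      _ = (C₁ * Real.log Y₀ ^ η') * X * (1 / Real.log B ^ η') := by ring
      _ ≤ F * X * (1 / Real.log B ^ η') := mul_le_mul_of_nonneg_right (mul_le_mul_of_nonneg_right g3 hX0.le) hBp.le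
      _ ≤ F * X * (1 / Real.log B ^ η' + 1 / Real.log X ^ η') := mul_le_mul_of_nonneg_left (by linarith) (by positivity)
  -- small `X`
  rcases lt_or_ge (Real.log X) R with hXR | hXR
  · have g1 : Real.log X ^ η' ≤ R ^ η' := Real.rpow_le_rpow hlX0.le hXR.le hη'0.le
    have g2 : 1 ≤ R ^ η' * (1 / Real.log X ^ η') := by
      rw [mul_one_div, le_div_iff₀ (by positivity), one_mul]
      exact g1
    have g3 : C₁ * R ^ η' ≤ F := by
      rw [hF]
      have : 0 < C₁ * Real.log Y₀ ^ η' := by positivity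
      have : 0 < C * C₄ := by positivity
      linarith
    calc (S.card : ℝ) ≤ C₁ * X * 1 := by rw [mul_one]; exact htriv
      _ ≤ C₁ * X * (R ^ η' * (1 / Real.log X ^ η')) := mul_le_mul_of_nonneg_left g2 (by positivity)
      _ = (C₁ * R ^ η') * X * (1 / Real.log X ^ η') := by ring
      _ ≤ F * X * (1 / Real.log X ^ η') := mul_le_mul_of_nonneg_right (mul_le_mul_of_nonneg_right g3 hX0.le) hXp.le
      _ ≤ F * X * (1 / Real.log B ^ η' + 1 / Real.log X ^ η') := mul_le_mul_of_nonneg_left (by linarith) (by positivity)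
  -- the main case
  have hB3 : 3 ≤ B := hY₀.trans hBY
  set M := zz 2 X 1 with hM
  set V := zz 8 X 1 with hVd
  set Z := V ^ 2 with hZ
  have hM2 : 2 ≤ M := zz_two hX
  have hV2 : 2 ≤ V := zz_two hX
  have hlM1 : Real.log M ≤ Real.log X ^ (1 / 2 : ℝ) := by
    have := log_zz_le (N := 2) (κ := 1) hX (by norm_num)
    simpa using this
  have hlM2 : 1 / 4 * Real.log X ^ (1 / 2 : ℝ) ≤ Real.log M := by
    have := le_log_zz (N := 2) (κ := 1) hX (by norm_num)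
    simpa using this
  have hlV : Real.log V ≤ Real.log X ^ (1 / 8 : ℝ) := by
    have := log_zz_le (N := 8) (κ := 1) hX (by norm_num)
    simpa using this
  have hlZ : Real.log Z ≤ 2 * Real.log X ^ (1 / 8 : ℝ) := by
    rw [hZ, Nat.cast_pow, Real.log_pow, Nat.cast_ofNat]
    linarith
  have hp12 : 0 < Real.log X ^ (1 / 2 : ℝ) := by positivity
  have hp18 : 0 < Real.log X ^ (1 / 8 : ℝ) := by positivity
  have hsq : Real.log X ^ (1 / 2 : ℝ) * Real.log X ^ (1 / 2 : ℝ) = Real.log X := by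
    rw [← Real.rpow_add hlX0]
    norm_num
  have hA1 : (A : ℝ) + 1 ≤ Real.log X ^ (1 / 2 : ℝ) := by
    have g1 : ((A : ℝ) + 1) ^ 2 ≤ Real.log X := by
      refine le_trans ?_ hXR
      rw [hR]
      exact le_max_left _ _
    have g2 : (((A : ℝ) + 1) ^ 2) ^ (1 / 2 : ℝ) ≤ Real.log X ^ (1 / 2 : ℝ) := Real.rpow_le_rpow (by positivity) g1 (by norm_num)
    rwa [← Real.sqrt_eq_rpow, Real.sqrt_sq (by positivity)] at g2
  have h48 : (4 : ℝ) ≤ Real.log X ^ (1 / 8 : ℝ) := by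
    have g1 : (4 : ℝ) ^ 8 ≤ Real.log X := by
      refine le_trans ?_ hXR
      rw [hR]
      exact le_max_right _ _
    have g2 : ((4 : ℝ) ^ 8) ^ (1 / 8 : ℝ) ≤ Real.log X ^ (1 / 8 : ℝ) := Real.rpow_le_rpow (by positivity) g1 (by norm_num)
    have g3 : ((4 : ℝ) ^ 8) ^ (1 / 8 : ℝ) = 4 := by
      rw [← Real.rpow_natCast, ← Real.rpow_mul (by norm_num)]
      norm_num
    rwa [g3] at g2
  have hMX : M ^ (A + 1) ≤ X := by
    have hM0 : (0 : ℝ) < M := by exact_mod_cast (by omega : 0 < M)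
    have g1 : Real.log ((M : ℝ) ^ (A + 1)) ≤ Real.log X := by
      rw [Real.log_pow]
      push_cast
      calc ((A : ℝ) + 1) * Real.log M ≤ Real.log X ^ (1 / 2 : ℝ) * Real.log X ^ (1 / 2 : ℝ) :=
            mul_le_mul hA1 hlM1 (Real.log_natCast_nonneg M) hp12.le
        _ = _ := hsq
    have g2 := (Real.log_le_log_iff (by positivity) hX0).mp g1
    exact_mod_cast g2
  have hYX : ∀ Y : ℕ, 2 ≤ Y → Y ≤ Z → Real.log Y ≤ Real.log (X / M : ℕ) ^ (1 / 2 : ℝ) := by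
    intro Y hY hYZ
    have g1 : Real.log Y ≤ 2 * Real.log X ^ (1 / 8 : ℝ) :=
      (Real.log_le_log (by exact_mod_cast (by omega : 0 < Y)) (by exact_mod_cast hYZ)).trans hlZ
    have g2 : M ≤ X / M := by
      rw [Nat.le_div_iff_mul_le (by omega)]
      calc M * M = M ^ 2 := (sq M).symm
        _ ≤ M ^ (A + 1) := Nat.pow_le_pow_right (by omega) (by omega)
        _ ≤ X := hMX
    have g3 : Real.log M ≤ Real.log (X / M : ℕ) :=
      Real.log_le_log (by exact_mod_cast (by omega : 0 < M)) (by exact_mod_cast g2)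
    have g4 : (1 / 4 * Real.log X ^ (1 / 2 : ℝ)) ^ (1 / 2 : ℝ) ≤ Real.log (X / M : ℕ) ^ (1 / 2 : ℝ) :=
      Real.rpow_le_rpow (by positivity) (hlM2.trans g3) (by norm_num)
    refine g1.trans (le_trans ?_ g4)
    rw [Real.mul_rpow (by norm_num) hp12.le, ← Real.rpow_mul hlX0.le]
    have e1 : (1 / 4 : ℝ) ^ (1 / 2 : ℝ) = 1 / 2 := by
      rw [← Real.sqrt_eq_rpow, show (1 / 4 : ℝ) = (1 / 2) ^ 2 by norm_num, Real.sqrt_sq (by norm_num)]
    have e2 : Real.log X ^ ((1 / 2 : ℝ) * (1 / 2)) = Real.log X ^ (1 / 8 : ℝ) * Real.log X ^ (1 / 8 : ℝ) := by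
      rw [← Real.rpow_add hlX0]
      norm_num
    rw [e1, e2]
    nlinarith
  -- the sets with a large smooth part
  set SM := S.filter fun c => ¬ Nm D (c.filter fun p => D.nm p ≤ Z) ≤ M with hSM
  set I := (Finset.range (Z + 1)).filter fun i => B ≤ 2 ^ 2 ^ (i + 1) ∧ 2 ^ 2 ^ (i + 1) ≤ Z with hI
  let SI : ℕ → Finset (Finset D.P) := fun i => S.filter fun c => Nm D (c.filter fun p => D.nm p ≤ 2 ^ 2 ^ (i + 1)) ≤ M ∧
    ∃ τ, BadT D c τ ∧ (∀ p ∈ pf D c, D.cmp (τ p) ≠ j₀ → D.nm p ≤ 2 ^ 2 ^ (i + 1)) ∧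
      ∃ p ∈ pf D c, D.cmp (τ p) ≠ j₀ ∧ 2 ^ 2 ^ (i + 1) ≤ D.nm p ^ 2
  have hcov : S ⊆ SM ∪ I.biUnion SI := by
    intro c hc
    by_cases h1 : Nm D (c.filter fun p => D.nm p ≤ Z) ≤ M
    swap
    · exact Finset.mem_union_left _ (Finset.mem_filter.mpr ⟨hc, h1⟩)
    refine Finset.mem_union_right _ ?_
    obtain ⟨h2, τ, h3, ⟨p₁, h4, h5, h6⟩, h7⟩ := hSc c hc
    obtain ⟨p, hp, hmax⟩ := Finset.exists_max_image ((pf D c).filter fun p => D.cmp (τ p) ≠ j₀) D.nm
      ⟨p₁, Finset.mem_filter.mpr ⟨h4, h5⟩⟩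
    obtain ⟨g1, g2⟩ := Finset.mem_filter.mp hp
    obtain ⟨i, k1, k2⟩ := dyad99 (hS.two p)
    have g3 : B ≤ D.nm p := h6.trans (hmax p₁ (Finset.mem_filter.mpr ⟨h4, h5⟩))
    have g4 : D.nm p ≤ V := by
      have g5 := h7 p g1 g2
      rw [hVd]
      unfold zz
      refine Nat.le_floor (g5.trans (le_of_eq ?_))
      norm_num
    have g6 : 2 ^ 2 ^ (i + 1) ≤ Z := k2.trans (by rw [hZ]; exact Nat.pow_le_pow_left g4 2)
    refine Finset.mem_biUnion.mpr ⟨i, Finset.mem_filter.mpr ⟨?_, g3.trans k1, g6⟩, Finset.mem_filter.mpr ⟨hc, ?_, τ, h3, ?_, p, g1, g2, k2⟩⟩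
    · rw [Finset.mem_range]
      have a1 : i < 2 ^ i := Nat.lt_two_pow_self
      have a2 : 2 ^ i ≤ 2 ^ (i + 1) := Nat.pow_le_pow_right (by norm_num) (by omega)
      have a3 : 2 ^ (i + 1) < 2 ^ 2 ^ (i + 1) := Nat.lt_two_pow_self
      omega
    · refine le_trans (Nat.le_of_dvd (Nm_pos hS _) ?_) h1
      unfold Nm
      refine Finset.prod_dvd_prod_of_subset _ _ _ fun r hr => ?_
      obtain ⟨a1, a2⟩ := Finset.mem_filter.mp hr
      exact Finset.mem_filter.mpr ⟨a1, a2.trans g6⟩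
    · intro r hr hrj
      exact (hmax r (Finset.mem_filter.mpr ⟨hr, hrj⟩)).trans k1
  have hcard : (S.card : ℝ) ≤ SM.card + ∑ i ∈ I, ((SI i).card : ℝ) := by
    have g1 := Finset.card_le_card hcov
    have g2 := Finset.card_union_le SM (I.biUnion SI)
    have g4 := Finset.card_biUnion_le (s := I) (t := SI)
    have g6 : S.card ≤ SM.card + ∑ i ∈ I, (SI i).card := by omega
    exact_mod_cast g6
  have b1 : (SM.card : ℝ) ≤ 8 * C₂ * X * Real.log X ^ (-(3 / 8 : ℝ)) := by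
    have hlM0 : 0 < Real.log M := Real.log_pos (by exact_mod_cast (by omega : 1 < M))
    have g1 := hsm Z X (by rw [hZ]; nlinarith) (Real.log M) hlM0 SM (by
      intro c hc
      obtain ⟨a1, a2⟩ := Finset.mem_filter.mp hc
      refine ⟨(hSc c a1).1, ?_⟩
      push Not at a2
      have a3 : (M : ℝ) ≤ ∏ p ∈ c.filter (fun p => D.nm p ≤ Z), (D.nm p : ℝ) := by
        have : (M : ℝ) ≤ (Nm D (c.filter fun p => D.nm p ≤ Z) : ℕ) := by exact_mod_cast a2.le
        unfold Nm at this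
        push_cast at this
        exact this
      have a4 := Real.log_le_log (by exact_mod_cast (by omega : 0 < M)) a3
      rwa [Real.log_prod] at a4
      intro p _
      have := hS.two p
      exact_mod_cast (by omega : D.nm p ≠ 0))
    refine g1.trans ?_
    have g2 : Real.log Z / Real.log M ≤ 8 * Real.log X ^ (-(3 / 8 : ℝ)) := by
      rw [div_le_iff₀ hlM0]
      have e1 : Real.log X ^ (-(3 / 8 : ℝ)) * Real.log X ^ (1 / 2 : ℝ) = Real.log X ^ (1 / 8 : ℝ) := by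
        rw [← Real.rpow_add hlX0]
        norm_num
      have hp38 : 0 < Real.log X ^ (-(3 / 8 : ℝ)) := by positivity
      calc Real.log Z ≤ 2 * Real.log X ^ (1 / 8 : ℝ) := hlZ
        _ = 8 * Real.log X ^ (-(3 / 8 : ℝ)) * (1 / 4 * Real.log X ^ (1 / 2 : ℝ)) := by
            rw [← e1]
            ring
        _ ≤ 8 * Real.log X ^ (-(3 / 8 : ℝ)) * Real.log M := mul_le_mul_of_nonneg_left hlM2 (by positivity)
    calc C₂ * X * (Real.log Z / Real.log M) ≤ C₂ * X * (8 * Real.log X ^ (-(3 / 8 : ℝ))) :=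
          mul_le_mul_of_nonneg_left g2 (by positivity)
      _ = _ := by ring
  have b2 : ∑ i ∈ I, ((SI i).card : ℝ) ≤ C * X * (C₄ * Real.log B ^ (-(η / 2))) := by
    have g1 : ∀ i ∈ I, ((SI i).card : ℝ) ≤ C * X * Real.log ((2 ^ 2 ^ (i + 1) : ℕ) : ℝ) ^ (-η) := by
      intro i hi
      obtain ⟨_, a1, a2⟩ := Finset.mem_filter.mp hi
      refine hlev X (2 ^ 2 ^ (i + 1)) M (hBY.trans a1) (hYX _ (by omega) a2) hMX (SI i) fun c hc => ?_
      obtain ⟨k1, k2, k3⟩ := Finset.mem_filter.mp hc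
      exact ⟨(hSc c k1).1, k2, k3⟩
    refine (Finset.sum_le_sum g1).trans ?_
    rw [← Finset.mul_sum]
    exact mul_le_mul_of_nonneg_left (hlv B hB3 I fun i hi => (Finset.mem_filter.mp hi).2.1) (by positivity)
  have r1 : Real.log X ^ (-(3 / 8 : ℝ)) ≤ 1 / Real.log X ^ η' := by
    rw [one_div, ← Real.rpow_neg hlX0.le]
    exact Real.rpow_le_rpow_of_exponent_le hlX (neg_le_neg (by rw [hη']; exact min_le_right _ _))
  have r2 : Real.log B ^ (-(η / 2)) ≤ 1 / Real.log B ^ η' := by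
    rw [one_div, ← Real.rpow_neg hlB0.le]
    exact Real.rpow_le_rpow_of_exponent_le (log_ge_one hB3) (neg_le_neg (by rw [hη']; exact min_le_left _ _))
  have f1 : 8 * C₂ ≤ F := by
    rw [hF]
    have : 0 < C₁ * R ^ η' := by positivity
    have : 0 < C₁ * Real.log Y₀ ^ η' := by positivity
    have : 0 < C * C₄ := by positivity
    linarith
  have f2 : C * C₄ ≤ F := by
    rw [hF]
    have : 0 < C₁ * R ^ η' := by positivity
    have : 0 < C₁ * Real.log Y₀ ^ η' := by positivity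
    linarith
  calc (S.card : ℝ) ≤ 8 * C₂ * X * Real.log X ^ (-(3 / 8 : ℝ)) + C * X * (C₄ * Real.log B ^ (-(η / 2))) := by linarith
    _ ≤ 8 * C₂ * X * (1 / Real.log X ^ η') + C * X * (C₄ * (1 / Real.log B ^ η')) := by
        refine add_le_add (mul_le_mul_of_nonneg_left r1 (by positivity)) ?_
        exact mul_le_mul_of_nonneg_left (mul_le_mul_of_nonneg_left r2 hC₄.le) (by positivity)
    _ = 8 * C₂ * (X * (1 / Real.log X ^ η')) + C * C₄ * (X * (1 / Real.log B ^ η')) := by ring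
    _ ≤ F * (X * (1 / Real.log X ^ η')) + F * (X * (1 / Real.log B ^ η')) :=
        add_le_add (mul_le_mul_of_nonneg_right f1 (by positivity)) (mul_le_mul_of_nonneg_right f2 (by positivity))
    _ = _ := by ring

end Pool.Agent.Helper99.TW
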