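import Pool.Agent.Helper99.TW.CovLt

/-!
# Project TW (MP_e66f84_ag), block CLt: the count for one level
-/

set_option autoImplicit false

namespace Pool.Agent.Helper99.TW

open Filter Topology Pool.Agent.Helper99.HG Pool.Agent.HG Pool.Agent.TW
open Pool.Agent.TW37 (Cfg NmA TT IsSp Adm lowA lowQ pre VC vA SA EE nb chain NmA_pos VC_nonneg EE_ge_one)
open Pool.Agent.Helper99.HG2 (oo oo_spec BTRc)

variable {k : ℕ} {G : Type}

section one

variable [CommGroup G] {D : CD k G} {j₀ : Fin k} {o₀ : D.O} {ε C C' : ℝ} {A K₀ : ℕ} {z : ℕ → ℕ} {N X Y M : ℕ}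
  {K : Fin k → ℕ}

open Classical in
omit [CommGroup G] in
theorem vA_top99 (hN : 0 < N) (hK : ∀ j, j ≠ j₀ → K j ≤ N) (hK0 : K j₀ = N + 2) (a : D.P × D.O) :
    vA D z N K N a = (1 / 2 : ℝ) ^ (D.I a.1 a.2 j₀).card / D.nm a.1 := by
  unfold vA
  have h := sc_lt z hN (D.nm a.1)
  have e : Finset.univ.filter (fun j => N < K j ∧ sc z N (D.nm a.1) + 3 ≤ K j) = {j₀} := by
    ext j
    rw [Finset.mem_filter, Finset.mem_singleton]
    constructor
    · rintro ⟨_, h1, _⟩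
      by_contra h2
      have := hK j h2
      omega
    · rintro rfl
      refine ⟨Finset.mem_univ _, ?_, ?_⟩ <;> omega
  rw [e, Finset.sum_singleton]

open Classical in
/-- the number of the rough parts of a configuration -/
theorem card_rough (hS : Sys D.P D.nm) (hBTR : BTRc D j₀ C' A) {ω : Cfg D} (hω : Adm D z N A Y K ω)
    (hN : 0 < N) (hK : ∀ j, j ≠ j₀ → K j ≤ N) (hK0 : K j₀ = N + 2) (hY : 2 ≤ Y) (hC' : 0 < C')
    (hYX : Real.log Y ≤ Real.log (X / M : ℕ) ^ (1 / 2 : ℝ)) (hMX : M ^ (A + 1) ≤ X)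
    (hM : Nm D ω.1 * NmA D ω.2.1 * (∏ j, NmA D (ω.2.2 j)) ≤ M) {T : Finset (Finset D.P)}
    (hT : ∀ e ∈ T, RoughOf D j₀ o₀ Y X ω e) :
    (T.card : ℝ) ≤ C' * (X / Real.log Y) * VC D z N K N ω := by
  obtain ⟨w, hw⟩ : ∃ w, w = Nm D ω.1 * NmA D ω.2.1 * (∏ j, NmA D (ω.2.2 j)) := ⟨_, rfl⟩
  rw [← hw] at hM
  have hq0 : 0 < ∏ j, NmA D (ω.2.2 j) := Finset.prod_pos fun j _ => NmA_pos hS (ω.2.2 j)
  have hA0 : 0 < NmA D ω.2.1 := NmA_pos hS ω.2.1
  have hE0 : 0 < Nm D ω.1 := Nm_pos hS ω.1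
  have hw0 : 0 < w := by
    rw [hw]
    positivity
  have hM0 : 0 < M := lt_of_lt_of_le hw0 hM
  obtain ⟨τ, hτ⟩ : ∃ τ : D.P → D.O, ∀ a ∈ ω.2.1, τ a.1 = a.2 := by
    have : ∀ p : D.P, ∃ o : D.O, ∀ a ∈ ω.2.1, a.1 = p → o = a.2 := by
      intro p
      by_cases hp : ∃ a ∈ ω.2.1, a.1 = p
      · obtain ⟨a, ha, rfl⟩ := hp
        exact ⟨a.2, fun a' ha' h' => by rw [hω.fn a' ha' a ha h']⟩
      · exact ⟨o₀, fun a ha h' => absurd ⟨a, ha, h'⟩ hp⟩
    choose τ hτ using this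
    exact ⟨τ, fun a ha => hτ a.1 a ha rfl⟩
  have hinj : Set.InjOn Prod.fst (ω.2.1 : Set (D.P × D.O)) := fun a ha b hb hab =>
    hω.fn a (Finset.mem_coe.mp ha) b (Finset.mem_coe.mp hb) hab
  have hNm : Nm D (ω.2.1.image Prod.fst) = NmA D ω.2.1 := by
    unfold Nm NmA
    rw [Finset.prod_image hinj]
  have h1 := hBTR (ω.2.1.image Prod.fst) (by
      intro p hp
      obtain ⟨a, ha, rfl⟩ := Finset.mem_image.mp hp
      exact (hω.mem a ha).1) τ (by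
      intro p hp
      obtain ⟨a, ha, rfl⟩ := Finset.mem_image.mp hp
      rw [hτ a ha]
      exact (hω.mem a ha).2.2.1)
      (fun p i => D.g p (τ p) i *
        (∏ b ∈ ω.2.1.filter (fun b => b.1 ≠ p ∧ D.cmp b.2 = j₀), D.χ p i b.1 b.2)⁻¹) Y (X / w) hY (by
      refine hYX.trans (Real.rpow_le_rpow (Real.log_natCast_nonneg _) ?_ (by norm_num))
      have g1 : X / M ≤ X / w := Nat.div_le_div_left hM hw0
      have g2 : 0 < X / M := by
        refine Nat.div_pos ?_ hM0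
        calc M = M ^ 1 := (pow_one M).symm
          _ ≤ M ^ (A + 1) := Nat.pow_le_pow_right hM0 (by omega)
          _ ≤ X := hMX
      exact Real.log_le_log (by exact_mod_cast g2) (by exact_mod_cast g1)) (by
      rw [Nat.le_div_iff_mul_le hw0, hNm]
      have g1 : NmA D ω.2.1 ≤ M := by
        refine le_trans (Nat.le_of_dvd hw0 ?_) hM
        rw [hw]
        exact Dvd.dvd.mul_right (Dvd.intro_left _ rfl) _
      calc NmA D ω.2.1 ^ A * w ≤ M ^ A * M := Nat.mul_le_mul (Nat.pow_le_pow_left g1 A) hM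
        _ = M ^ (A + 1) := (pow_succ M A).symm
        _ ≤ X := hMX) (oo D j₀ o₀) T (by
      intro e he
      obtain ⟨g1, g2, g3⟩ := hT e he
      rw [← hw] at g1
      refine ⟨?_, g2, ?_⟩
      · rw [Nat.le_div_iff_mul_le hw0, mul_comm]
        exact g1
      · intro p hp i hi
        obtain ⟨a, ha, rfl⟩ := Finset.mem_image.mp hp
        rw [hτ a ha] at hi
        have g4 := g3 a ha i hi
        show ∏ q ∈ e, D.χ a.1 i q (oo D j₀ o₀ q) = D.g a.1 (τ a.1) i *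
          (∏ b ∈ ω.2.1.filter (fun b => b.1 ≠ a.1 ∧ D.cmp b.2 = j₀), D.χ a.1 i b.1 b.2)⁻¹
        rw [hτ a ha]
        exact g4)
  have h3 : ∏ p ∈ ω.2.1.image Prod.fst, (1 / 2 : ℝ) ^ (D.I p (τ p) j₀).card =
      ∏ a ∈ ω.2.1, (1 / 2 : ℝ) ^ (D.I a.1 a.2 j₀).card := by
    rw [Finset.prod_image hinj]
    exact Finset.prod_congr rfl fun a ha => by rw [hτ a ha]
  rw [h3] at h1
  obtain ⟨Q, hQ⟩ : ∃ Q : ℝ, Q = ∏ a ∈ ω.2.1, (1 / 2 : ℝ) ^ (D.I a.1 a.2 j₀).card := ⟨_, rfl⟩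
  rw [← hQ] at h1
  have hQ0 : 0 < Q := by
    rw [hQ]
    exact Finset.prod_pos fun a _ => by positivity
  have hlY : 0 < Real.log Y := Real.log_pos (by exact_mod_cast (by omega : 1 < Y))
  have hVC : VC D z N K N ω = Q / w := by
    unfold VC
    have e1 : ∏ a ∈ ω.2.1, vA D z N K N a = Q / NmA D ω.2.1 := by
      rw [Finset.prod_congr rfl fun a _ => vA_top99 hN hK hK0 a, Finset.prod_div_distrib, hQ]
      unfold NmA
      push_cast
      rfl
    rw [e1, Finset.prod_div_distrib, Finset.prod_const_one, hw]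
    push_cast
    have a1 : (Nm D ω.1 : ℝ) ≠ 0 := by exact_mod_cast hE0.ne'
    have a2 : (NmA D ω.2.1 : ℝ) ≠ 0 := by exact_mod_cast hA0.ne'
    have a3 : (∏ j, (NmA D (ω.2.2 j) : ℝ)) ≠ 0 := by exact_mod_cast hq0.ne'
    field_simp
  rw [hVC]
  refine h1.trans ?_
  have g : ((X / w : ℕ) : ℝ) ≤ X / (w : ℝ) := Nat.cast_div_le
  calc C' * Q * (((X / w : ℕ) : ℝ) / Real.log Y) ≤ C' * Q * (X / w / Real.log Y) :=
        mul_le_mul_of_nonneg_left (div_le_div_of_nonneg_right g hlY.le) (by positivity)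
    _ = _ := by
        have a1 : (w : ℝ) ≠ 0 := by exact_mod_cast hw0.ne'
        field_simp

end one

open Classical in
/-- the main count for one level -/
theorem main_countLt [CommGroup G] {D : CD k G} (hS : Sys D.P D.nm) {j₀ : Fin k} (hsp : Special D j₀) {ε C C' : ℝ}
    {A K₀ : ℕ} (hC : 0 < C) (hε : 0 < ε) (hε1 : ε ≤ 1) (hBT : BTc D ε C A) (hC' : 0 < C') (hBTR : BTRc D j₀ C' A)
    (hV : ∀ p, (D.V p).card ≤ K₀) {z : ℕ → ℕ} {N X Y M : ℕ} (hN : 0 < N) (hY : 3 ≤ Y)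
    (hYX : Real.log Y ≤ Real.log (X / M : ℕ) ^ (1 / 2 : ℝ)) (hMX : M ^ (A + 1) ≤ X)
    (hEx : ∀ p ∈ D.Ex, D.nm p ≤ Y) (o₀ : D.O) (S : Finset (Finset D.P)) (hSc : ∀ c ∈ S, Nm D c ≤ X ∧
      Nm D (c.filter fun p => D.nm p ≤ Y) ≤ M ∧
      (∃ τ, BadT D c τ ∧ (∀ p ∈ pf D c, D.cmp (τ p) ≠ j₀ → D.nm p ≤ Y) ∧
        ∃ p ∈ pf D c, D.cmp (τ p) ≠ j₀ ∧ z (N - 1) < D.nm p) ∧
      (∀ κ, 1 ≤ κ → κ + 1 ≤ N - 1 → (∏ p ∈ (pf D c).filter (fun p => D.nm p ≤ z κ), D.nm p) ^ A ≤ z (κ + 1)))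
    {W : ℝ} (hB : ∀ K : Fin k → ℕ, (∀ κ < N, j₀ ∈ Js K κ ∧ Js K κ ≠ {j₀}) → ∃ B : ℕ → ℝ,
      (∀ κ < N, ∀ t : D.P → Fin k → D.ι → G, SA D z N Y K κ t ≤ B κ) ∧ ∑ κ ∈ Finset.range N, B κ ≤ W) :
    (S.card : ℝ) ≤ (N + 3) ^ k * (C' * EE ε C K₀ Y ^ k / Real.log Y * X * (Real.exp W * Real.exp D.Ex.card)) := by
  -- the configurations
  have hcfg : ∀ c : Finset D.P, ∃ (K : Fin k → ℕ) (ω : Cfg D) (e : Finset D.P), c ∈ S →
      (∀ j, j ≠ j₀ → K j ≤ N) ∧ K j₀ = N + 2 ∧ (∃ j₁, j₁ ≠ j₀ ∧ K j₁ = N) ∧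
      Adm D z N A Y K ω ∧ ω.2.2 j₀ = ∅ ∧ Nm D ω.1 * NmA D ω.2.1 * (∏ j, NmA D (ω.2.2 j)) ≤ M ∧
      RoughOf D j₀ o₀ Y X ω e ∧ supp D ω ∪ e = c := by
    intro c
    by_cases hc : c ∈ S
    · obtain ⟨h1, h2, ⟨τ, h3, h4, h5⟩, h6⟩ := hSc c hc
      obtain ⟨K, hK1, hK2, hK3, ω, hω1, hω2, hω3, e, he1, he2⟩ := cfgL hS hsp hN h1 h3 hEx h4 h5 h6 h2 o₀
      exact ⟨K, ω, e, fun _ => ⟨hK1, hK2, hK3, hω1, hω2, hω3, he1, he2⟩⟩
    · exact ⟨fun _ => 0, (∅, ∅, fun _ => ∅), ∅, fun h => absurd h hc⟩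
  choose Kc ωc ec hc using hcfg
  set Ks := (Fintype.piFinset fun _ : Fin k => Finset.range (N + 3)).filter fun K =>
    (∀ j, j ≠ j₀ → K j ≤ N) ∧ K j₀ = N + 2 ∧ ∃ j₁, j₁ ≠ j₀ ∧ K j₁ = N with hKs
  have hKm : ∀ c ∈ S, Kc c ∈ Ks := by
    intro c hcS
    obtain ⟨h1, h2, h3, _⟩ := hc c hcS
    refine Finset.mem_filter.mpr ⟨Fintype.mem_piFinset.mpr fun j => Finset.mem_range.mpr ?_, h1, h2, h3⟩
    by_cases hj : j = j₀
    · rw [hj, h2]
      omega
    · have := h1 j hj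
      omega
  have hlY := log_ge_one hY
  have hlY0 : 0 < Real.log Y := by linarith
  have hE1 : 1 ≤ EE ε C K₀ Y := EE_ge_one hC hε hY
  have hcard : (S.card : ℝ) = ∑ K ∈ Ks, ((S.filter fun c => Kc c = K).card : ℝ) := by
    rw [← Nat.cast_sum]
    congr 1
    exact Finset.card_eq_sum_card_fiberwise hKm
  have hone : ∀ K ∈ Ks, ((S.filter fun c => Kc c = K).card : ℝ) ≤
      C' * EE ε C K₀ Y ^ k / Real.log Y * X * (Real.exp W * Real.exp D.Ex.card) := by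
    intro K hK
    obtain ⟨_, hK1, hK2, j₁, hj₁, hK3⟩ := Finset.mem_filter.mp hK
    have hJ : ∀ κ < N, j₀ ∈ Js K κ ∧ Js K κ ≠ {j₀} := by
      intro κ hκ
      refine ⟨Finset.mem_filter.mpr ⟨Finset.mem_univ _, by omega⟩, fun h => hj₁ ?_⟩
      have h1 : j₁ ∈ Js K κ := Finset.mem_filter.mpr ⟨Finset.mem_univ _, by omega⟩
      rw [h] at h1
      exact Finset.mem_singleton.mp h1
    obtain ⟨B, hB1, hB2⟩ := hB K hJ
    obtain ⟨SK, hSK⟩ : ∃ SK, SK = S.filter fun c => Kc c = K := ⟨_, rfl⟩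
    rw [← hSK]
    have hSKm : ∀ c ∈ SK, c ∈ S ∧ Kc c = K := fun c h => by
      rw [hSK] at h
      exact Finset.mem_filter.mp h
    obtain ⟨R, hR⟩ : ∃ R, R = SK.image ωc := ⟨_, rfl⟩
    have hRm : ∀ ω ∈ R, Adm D z N A Y K ω ∧ ω.2.2 j₀ = ∅ ∧
        Nm D ω.1 * NmA D ω.2.1 * (∏ j, NmA D (ω.2.2 j)) ≤ M := by
      intro ω hω
      rw [hR] at hω
      obtain ⟨c, hcm, rfl⟩ := Finset.mem_image.mp hω
      obtain ⟨g1, g2⟩ := hSKm c hcm
      obtain ⟨_, _, _, h4, h5, h6, _, _⟩ := hc c g1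
      rw [g2] at h4
      exact ⟨h4, h5, h6⟩
    have e1 : (SK.card : ℝ) = ∑ ω ∈ R, ((SK.filter fun c => ωc c = ω).card : ℝ) := by
      rw [← Nat.cast_sum]
      congr 1
      refine Finset.card_eq_sum_card_fiberwise fun c h => ?_
      rw [hR]
      exact Finset.mem_coe.mpr (Finset.mem_image_of_mem ωc (Finset.mem_coe.mp h))
    have e2 : ∀ ω ∈ R, ((SK.filter fun c => ωc c = ω).card : ℝ) ≤ C' * (X / Real.log Y) * VC D z N K N ω := by
      intro ω hω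
      obtain ⟨g1, g2, g3⟩ := hRm ω hω
      have h1 : (SK.filter fun c => ωc c = ω).card = ((SK.filter fun c => ωc c = ω).image ec).card := by
        refine (Finset.card_image_of_injOn ?_).symm
        intro c h c' h' hcc
        obtain ⟨a1, a2⟩ := Finset.mem_filter.mp (Finset.mem_coe.mp h)
        obtain ⟨b1, b2⟩ := Finset.mem_filter.mp (Finset.mem_coe.mp h')
        have a3 := (hc c (hSKm c a1).1).2.2.2.2.2.2.2
        have b3 := (hc c' (hSKm c' b1).1).2.2.2.2.2.2.2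
        rw [← a3, ← b3, a2, b2, hcc]
      rw [h1]
      refine card_rough (o₀ := o₀) hS hBTR g1 hN hK1 hK2 (by omega) hC' hYX hMX g3 ?_
      intro e he
      obtain ⟨c, hcm, rfl⟩ := Finset.mem_image.mp he
      obtain ⟨a1, a2⟩ := Finset.mem_filter.mp hcm
      have a3 := (hc c (hSKm c a1).1).2.2.2.2.2.2.1
      rw [a2] at a3
      exact a3
    have e3 : R.image (pre D z N K N) = R := by
      have h1 : R.image (pre D z N K N) = R.image id := by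
        refine Finset.image_congr fun ω hω => ?_
        obtain ⟨g1, g2, g3⟩ := hRm ω (Finset.mem_coe.mp hω)
        refine Prod.ext rfl (Prod.ext ?_ ?_)
        · show lowA D z N N ω.2.1 = ω.2.1
          unfold lowA
          rw [Finset.filter_eq_self]
          exact fun a _ => sc_lt z hN (D.nm a.1)
        · funext j
          show (if K j ≤ N then ω.2.2 j else ∅) = ω.2.2 j
          by_cases hj : j = j₀
          · rw [hj, g2]
            simp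
          · rw [if_pos (hK1 j hj)]
      rw [h1, Finset.image_id]
    have e4 := chain hS hC hε hε1 hBT hV hY (fun ω hω => (hRm ω hω).1) hB1 N le_rfl (R := R)
    rw [e3] at e4
    have e5 : EE ε C K₀ Y ^ nb K N ≤ EE ε C K₀ Y ^ k := by
      refine pow_le_pow_right₀ hE1 ?_
      unfold nb
      exact (Finset.card_filter_le _ _).trans (by simp)
    have hX0 : (0 : ℝ) ≤ X := Nat.cast_nonneg X
    have hE0 : 0 < EE ε C K₀ Y := by linarith
    have e6 : Real.exp (∑ κ ∈ Finset.range N, B κ) * Real.exp D.Ex.card ≤ Real.exp W * Real.exp D.Ex.card :=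
      mul_le_mul_of_nonneg_right (Real.exp_le_exp.mpr hB2) (Real.exp_pos _).le
    rw [e1]
    refine (Finset.sum_le_sum e2).trans ?_
    rw [← Finset.mul_sum]
    calc C' * (X / Real.log Y) * ∑ ω ∈ R, VC D z N K N ω
        ≤ C' * (X / Real.log Y) * (EE ε C K₀ Y ^ k * (Real.exp W * Real.exp D.Ex.card)) := by
          refine mul_le_mul_of_nonneg_left (e4.trans ?_) (by positivity)
          exact mul_le_mul e5 e6 (by positivity) (by positivity)
      _ = _ := by ring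
  rw [hcard]
  refine (Finset.sum_le_sum hone).trans ?_
  rw [Finset.sum_const, nsmul_eq_mul]
  have h5 : Ks.card ≤ (N + 3) ^ k := by
    refine (Finset.card_filter_le _ _).trans ?_
    rw [Fintype.card_piFinset]
    simp
  have h6 : (Ks.card : ℝ) ≤ (N + 3) ^ k := by exact_mod_cast h5
  have hE0 : 0 < EE ε C K₀ Y := by linarith
  exact mul_le_mul_of_nonneg_right h6 (by positivity)

end Pool.Agent.Helper99.TW
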