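import Pool.Agent.Helper99.TW.SumLt

/-!
# Project TW (MP_e66f84_ag), block CLt: one level
-/

set_option autoImplicit false

namespace Pool.Agent.Helper99.TW

open Filter Topology Pool.Agent.Helper99.HG Pool.Agent.HG Pool.Agent.TW
open Pool.Agent.TW37 (SA EE)
open Pool.Agent.Helper99.HG2 (oo oo_spec BTRc)

variable {k : ℕ} {G : Type}

private theorem ll_mono99 {y x : ℕ} (hy : 2 ≤ y) (h : y ≤ x) : Real.log (Real.log y) ≤ Real.log (Real.log x) :=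
  Real.log_le_log (Real.log_pos (by exact_mod_cast (by omega : 1 < y)))
    (Real.log_le_log (by exact_mod_cast (by omega : 0 < y)) (by exact_mod_cast h))

/-- uniform constants -/
private theorem unif_B99 (D : CD k G) : ∃ δ C : ℝ, 0 < δ ∧ δ ≤ 1 ∧ 0 ≤ C ∧ ∀ J, TBt D J → ∀ y x : ℕ, 2 ≤ y → y ≤ x →
    ∀ t : D.P → Fin k → D.ι → G, ∀ S : Finset D.P, (∀ p, p ∈ S ↔ p ∉ D.Ex ∧ y < D.nm p ∧ D.nm p ≤ x) →
      ∑ p ∈ S, WJt D J (t p) p / D.nm p ≤ (1 - δ) * (Real.log (Real.log x) - Real.log (Real.log y)) + C := by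
  classical
  have h : ∀ J : Finset (Fin k), ∃ δ C : ℝ, 0 < δ ∧ δ ≤ 1 ∧ 0 ≤ C ∧ (TBt D J → ∀ y x : ℕ, 2 ≤ y → y ≤ x →
      ∀ t : D.P → Fin k → D.ι → G, ∀ S : Finset D.P, (∀ p, p ∈ S ↔ p ∉ D.Ex ∧ y < D.nm p ∧ D.nm p ≤ x) →
      ∑ p ∈ S, WJt D J (t p) p / D.nm p ≤ (1 - δ) * (Real.log (Real.log x) - Real.log (Real.log y)) + C) := by
    intro J
    by_cases hJ : TBt D J
    · obtain ⟨_, δ, C, h1, h2⟩ := id hJ
      refine ⟨min δ 1, |C|, lt_min h1 one_pos, min_le_right _ _, abs_nonneg C, fun _ y x hy hx t S hS => ?_⟩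
      have h3 := h2 y x hy hx t S hS
      have h4 := ll_mono99 hy hx
      have h5 : (1 - δ) * (Real.log (Real.log x) - Real.log (Real.log y)) ≤ (1 - min δ 1) * (Real.log (Real.log x) - Real.log (Real.log y)) :=
        mul_le_mul_of_nonneg_right (by linarith [min_le_left δ 1]) (by linarith)
      linarith [le_abs_self C]
    · exact ⟨1, 0, one_pos, le_rfl, le_rfl, fun h => absurd h hJ⟩
  choose δ C h1 h2 h3 h4 using h
  refine ⟨∏ J, δ J, ∑ J, C J, Finset.prod_pos fun J _ => h1 J, Finset.prod_le_one (fun J _ => (h1 J).le) fun J _ => h2 J,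
    Finset.sum_nonneg fun J _ => h3 J, fun J hJ y x hy hx t S hS => ?_⟩
  have h5 := h4 J hJ y x hy hx t S hS
  have h6 : ∏ J, δ J ≤ δ J := by
    rw [← Finset.mul_prod_erase Finset.univ δ (Finset.mem_univ J)]
    have : ∏ J ∈ Finset.univ.erase J, δ J ≤ 1 := Finset.prod_le_one (fun J _ => (h1 J).le) fun J _ => h2 J
    nlinarith [h1 J]
  have h7 : C J ≤ ∑ J, C J := Finset.single_le_sum (fun J _ => h3 J) (Finset.mem_univ J)
  have h8 := ll_mono99 hy hx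
  have h9 : (1 - δ J) * (Real.log (Real.log x) - Real.log (Real.log y)) ≤ (1 - ∏ J, δ J) * (Real.log (Real.log x) - Real.log (Real.log y)) :=
    mul_le_mul_of_nonneg_right (by linarith) (by linarith)
  linarith

private theorem exp_ll99 {X : ℕ} (hX : 3 ≤ X) (a : ℝ) : Real.exp (a * Real.log (Real.log X)) = Real.log X ^ a := by
  rw [Real.rpow_def_of_pos (by linarith [log_ge_one hX]), mul_comm]

open Classical in
/-- few sets with a large smooth part -/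
private theorem exc_E99 {D : CD k G} (hS : Sys D.P D.nm) : ∃ C : ℝ, 0 < C ∧ ∀ (N A X Y κ : ℕ), 3 ≤ Y → κ + 1 ≤ N → 0 < A →
    ∀ S : Finset (Finset D.P), (∀ c ∈ S, Nm D c ≤ X ∧
      ¬ (∏ p ∈ (pf D c).filter (fun p => D.nm p ≤ zz N Y κ), D.nm p) ^ A ≤ zz N Y (κ + 1)) →
    (S.card : ℝ) ≤ 4 * A * C * X * Real.log Y ^ (-(1 / (N : ℝ))) := by
  obtain ⟨C, hC, h⟩ := smooth hS
  refine ⟨C, hC, fun N A X Y κ hX hκ hA S hSc => ?_⟩
  have hA' : (0 : ℝ) < A := by exact_mod_cast hA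
  have hlX := log_ge_one hX
  have hN' : (0 : ℝ) < N := by exact_mod_cast (by omega : 0 < N)
  have hz2 := zz_two (N := N) (κ := κ) hX
  have hz3 := zz_two (N := N) (κ := κ + 1) hX
  have hlz : 0 < Real.log (zz N Y (κ + 1)) := Real.log_pos (by exact_mod_cast (by omega : 1 < zz N Y (κ + 1)))
  have h1 := h (zz N Y κ) X hz2 (Real.log (zz N Y (κ + 1)) / A) (by positivity) S (by
    intro c hc
    obtain ⟨g1, g2⟩ := hSc c hc
    refine ⟨g1, ?_⟩
    push Not at g2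
    have g3 : (zz N Y (κ + 1) : ℝ) ≤ ((∏ p ∈ (pf D c).filter (fun p => D.nm p ≤ zz N Y κ), D.nm p : ℕ) : ℝ) ^ A := by exact_mod_cast g2.le
    have g4 := Real.log_le_log (by exact_mod_cast (by omega : 0 < zz N Y (κ + 1))) g3
    rw [Real.log_pow, Nat.cast_prod, Real.log_prod] at g4
    · rw [div_le_iff₀ hA', mul_comm]
      refine g4.trans (mul_le_mul_of_nonneg_left ?_ hA'.le)
      refine Finset.sum_le_sum_of_subset_of_nonneg ?_ fun p _ _ => Real.log_nonneg ?_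
      · intro p hp
        obtain ⟨k1, k2⟩ := Finset.mem_filter.mp hp
        exact Finset.mem_filter.mpr ⟨(mem_pf.mp k1).1, k2⟩
      · have := hS.two p
        exact_mod_cast (by omega : 1 ≤ D.nm p)
    · intro p _
      have := hS.two p
      exact_mod_cast (by omega : D.nm p ≠ 0))
  refine h1.trans ?_
  have h2 := log_zz_le (N := N) (κ := κ) hX (by omega)
  have h3 := le_log_zz (N := N) (κ := κ + 1) hX hκ
  have hp1 : 0 < Real.log Y ^ ((κ : ℝ) / N) := by positivity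
  have hp2 : 0 < Real.log Y ^ (((κ + 1 : ℕ) : ℝ) / N) := by positivity
  have h4 : Real.log (zz N Y κ) / (Real.log (zz N Y (κ + 1)) / A) ≤ 4 * A * Real.log Y ^ (-(1 / (N : ℝ))) := by
    have e : Real.log Y ^ (-(1 / (N : ℝ))) = Real.log Y ^ ((κ : ℝ) / N) / Real.log Y ^ (((κ + 1 : ℕ) : ℝ) / N) := by
      rw [← Real.rpow_sub (by linarith)]
      congr 1
      push_cast
      field_simp
      ring
    rw [e, div_div_eq_mul_div, div_le_iff₀ hlz]
    have h5 : 4 * (A : ℝ) * (Real.log Y ^ ((κ : ℝ) / N) / Real.log Y ^ (((κ + 1 : ℕ) : ℝ) / N)) * (1 / 4 * Real.log Y ^ (((κ + 1 : ℕ) : ℝ) / N)) ≤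
        4 * (A : ℝ) * (Real.log Y ^ ((κ : ℝ) / N) / Real.log Y ^ (((κ + 1 : ℕ) : ℝ) / N)) * Real.log (zz N Y (κ + 1)) :=
      mul_le_mul_of_nonneg_left h3 (by positivity)
    refine le_trans ?_ h5
    calc Real.log (zz N Y κ) * A ≤ Real.log Y ^ ((κ : ℝ) / N) * A := mul_le_mul_of_nonneg_right h2 hA'.le
      _ = _ := by field_simp
  calc C * X * (Real.log (zz N Y κ) / (Real.log (zz N Y (κ + 1)) / A)) ≤ C * X * (4 * A * Real.log Y ^ (-(1 / (N : ℝ)))) :=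
        mul_le_mul_of_nonneg_left h4 (by positivity)
    _ = _ := by ring

private theorem rpow_le99 {X : ℕ} (hX : 3 ≤ X) {a η : ℝ} (h : η ≤ a) : Real.log X ^ (-a) ≤ Real.log X ^ (-η) :=
  Real.rpow_le_rpow_of_exponent_le (log_ge_one hX) (by linarith)

/-- the largest threshold is less than the square root -/
private theorem zz_lt99 {N Y n : ℕ} (hN : 0 < N) (hY : 3 ≤ Y) (hYN : (2 : ℝ) ^ N < Real.log Y) (hn : 2 ≤ n) (h : Y ≤ n ^ 2) :
    zz N Y (N - 1) < n := by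
  by_contra hlt
  push Not at hlt
  have hN' : (0 : ℝ) < N := by exact_mod_cast hN
  have hl1 := log_ge_one hY
  have hl0 : 0 < Real.log Y := by linarith
  have h1 : Real.log n ≤ Real.log Y ^ (((N - 1 : ℕ) : ℝ) / N) :=
    (Real.log_le_log (by exact_mod_cast (by omega : 0 < n)) (by exact_mod_cast hlt)).trans (log_zz_le hY (Nat.sub_le N 1))
  have h2 : Real.log Y ≤ 2 * Real.log n := by
    have g : (Y : ℝ) ≤ (n : ℝ) ^ 2 := by exact_mod_cast h
    have g2 := Real.log_le_log (by exact_mod_cast (by omega : 0 < Y)) g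
    rwa [Real.log_pow, Nat.cast_ofNat] at g2
  have h3 : (2 : ℝ) < Real.log Y ^ (1 / (N : ℝ)) := by
    have g : ((2 : ℝ) ^ N) ^ (1 / (N : ℝ)) < Real.log Y ^ (1 / (N : ℝ)) :=
      Real.rpow_lt_rpow (by positivity) hYN (by positivity)
    rwa [← Real.rpow_natCast, ← Real.rpow_mul (by norm_num), mul_one_div_cancel hN'.ne', Real.rpow_one] at g
  have h4 : Real.log Y ^ (1 / (N : ℝ)) * Real.log Y ^ (((N - 1 : ℕ) : ℝ) / N) = Real.log Y := by
    rw [← Real.rpow_add hl0]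
    have e : 1 / (N : ℝ) + ((N - 1 : ℕ) : ℝ) / N = 1 := by
      rw [Nat.cast_sub (by omega)]
      field_simp
      push_cast
      ring
    rw [e, Real.rpow_one]
  have h5 : 0 < Real.log Y ^ (((N - 1 : ℕ) : ℝ) / N) := by positivity
  nlinarith

open Classical in
/-- one level -/
theorem levelLt [CommGroup G] {D : CD k G} (hS : Sys D.P D.nm) (hV : ∃ K : ℕ, ∀ p, (D.V p).card ≤ K) (hBT : BT D)
    {j₀ : Fin k} (hsp : Special D j₀) (hBTR : BTR D j₀) (hTBJ : ∀ J : Finset (Fin k), j₀ ∈ J → J ≠ {j₀} → TBt D J) :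
    ∃ (η C : ℝ) (Y₀ A : ℕ), 0 < η ∧ 0 < C ∧ 3 ≤ Y₀ ∧ 0 < A ∧ ∀ X Y M : ℕ, Y₀ ≤ Y →
      Real.log Y ≤ Real.log (X / M : ℕ) ^ (1 / 2 : ℝ) → M ^ (A + 1) ≤ X → ∀ S : Finset (Finset D.P),
      (∀ c ∈ S, Nm D c ≤ X ∧ Nm D (c.filter fun p => D.nm p ≤ Y) ≤ M ∧ ∃ τ, BadT D c τ ∧
        (∀ p ∈ pf D c, D.cmp (τ p) ≠ j₀ → D.nm p ≤ Y) ∧ ∃ p ∈ pf D c, D.cmp (τ p) ≠ j₀ ∧ Y ≤ D.nm p ^ 2) →
      (S.card : ℝ) ≤ C * X * Real.log Y ^ (-η) := by
  obtain ⟨K₀, hV⟩ := hV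
  -- the trivial case
  by_cases hO : Nonempty D.O
  swap
  · refine ⟨1, 1, 3, 1, one_pos, one_pos, le_rfl, one_pos, fun X Y M hY _ _ S hSc => ?_⟩
    have hsub : S ⊆ ∅ := by
      intro c hc
      obtain ⟨_, _, τ, _, _, p, _, _⟩ := hSc c hc
      exact absurd ⟨τ p⟩ hO
    have h1 : S.card = 0 := by
      rw [Finset.subset_empty.mp hsub]
      rfl
    rw [h1, Nat.cast_zero]
    have := log_ge_one hY
    positivity
  obtain ⟨o₀⟩ := hO
  obtain ⟨δB, CB, hδB, hδB1, hCB, hTB⟩ := unif_B99 D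
  obtain ⟨CM', hMe'⟩ := hS.mert
  obtain ⟨CM, hCM, hMe⟩ : ∃ CM : ℝ, 0 ≤ CM ∧ ∀ y x : ℕ, 2 ≤ y → y ≤ x → ∀ S : Finset D.P, (∀ p ∈ S, y < D.nm p ∧ D.nm p ≤ x) →
      ∑ p ∈ S, (1 : ℝ) / D.nm p ≤ Real.log (Real.log x) - Real.log (Real.log y) + CM :=
    ⟨|CM'|, abs_nonneg _, fun y x hy hx S h => (hMe' y x hy hx S h).trans (by linarith [le_abs_self CM'])⟩
  -- parameters
  obtain ⟨e, he⟩ : ∃ e : ℝ, e = δB / (4 * (k + 1)) := ⟨_, rfl⟩
  have hk1 : (0 : ℝ) < (k : ℝ) + 1 := by positivity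
  have he0 : 0 < e := by
    rw [he]
    positivity
  have hek : (k + 1) * e = δB / 4 := by
    rw [he]
    field_simp
  have he1 : e ≤ 1 := by
    have h1 : 1 * e ≤ (k + 1) * e := mul_le_mul_of_nonneg_right (by linarith [(Nat.cast_nonneg k : (0 : ℝ) ≤ k)]) he0.le
    linarith
  obtain ⟨C, A₁, hC, hBT'⟩ := hBT e he0
  obtain ⟨C', A₂, hC', hBTR'⟩ := hBTR
  obtain ⟨A, hA⟩ : ∃ A : ℕ, A = A₁ + A₂ + 1 := ⟨_, rfl⟩
  have hBTc : BTc D e C A := by
    intro j m hm τ hτ t h h2 hmA T hT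
    refine hBT' j m hm τ hτ t h h2 (le_trans ?_ hmA) T hT
    exact Nat.pow_le_pow_right (Nm_pos hS m) (by omega)
  have hBTRc : BTRc D j₀ C' A := by
    intro m hm τ hτ t Y h h2 hYh hmA o E hE
    refine hBTR' m hm τ hτ t Y h h2 hYh (le_trans ?_ hmA) o E hE
    exact Nat.pow_le_pow_right (Nm_pos hS m) (by omega)
  obtain ⟨N, hN'⟩ := exists_nat_gt (8 * (1 + k * K₀) / δB)
  have hN1 : 8 * (1 + (k : ℝ) * K₀) < δB * N := by
    rw [div_lt_iff₀ hδB] at hN'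
    linarith
  have hNpos : (0 : ℝ) < N := lt_of_le_of_lt (by positivity) hN'
  have hN0 : 0 < N := by exact_mod_cast hNpos
  have hNfrac : 2 * (k : ℝ) * K₀ / N ≤ δB / 4 := by
    rw [div_le_iff₀ hNpos]
    linarith
  obtain ⟨C₁, hC₁, hE⟩ := exc_E99 hS
  obtain ⟨B₀, hB₀⟩ : ∃ B₀ : ℝ, B₀ = K₀ * (pr D 2).card + N * ((Real.log 4 + CB) + K₀ * (Real.log 4 + CM)) := ⟨_, rfl⟩
  obtain ⟨C₃, hC₃⟩ : ∃ C₃ : ℝ, C₃ = (N + 3) ^ k * (C' * (1 + 16 / e * (K₀ * C)) ^ k * (Real.exp B₀ * Real.exp D.Ex.card)) := ⟨_, rfl⟩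
  have hC₃0 : 0 ≤ C₃ := by
    rw [hC₃]
    positivity
  obtain ⟨η, hη⟩ : ∃ η : ℝ, η = min (1 / (N : ℝ)) (δB / 2) := ⟨_, rfl⟩
  have hη0 : 0 < η := by
    rw [hη]
    exact lt_min (by positivity) (by positivity)
  obtain ⟨n₀, hn₀⟩ := exists_nat_gt (Real.exp ((2 : ℝ) ^ N))
  refine ⟨η, (N : ℝ) * (4 * A * C₁) + C₃ + 1, max (max 3 n₀) (D.Ex.sup D.nm), A, hη0, by positivity,
    (le_max_left _ _).trans (le_max_left _ _), by omega, fun X Y M hY hYX hMX S hSc => ?_⟩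
  have hY3 : 3 ≤ Y := ((le_max_left _ _).trans (le_max_left _ _)).trans hY
  have hYn : n₀ ≤ Y := ((le_max_right _ _).trans (le_max_left _ _)).trans hY
  have hYE : D.Ex.sup D.nm ≤ Y := (le_max_right _ _).trans hY
  have hlY := log_ge_one hY3
  have hLp : 0 < Real.log Y := by linarith
  have hYN : (2 : ℝ) ^ N < Real.log Y := by
    rw [Real.lt_log_iff_exp_lt (by exact_mod_cast (by omega : 0 < Y))]
    exact hn₀.trans_le (by exact_mod_cast hYn)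
  have hX0 : (0 : ℝ) ≤ X := Nat.cast_nonneg X
  set z := zz N Y with hz
  let SE : ℕ → Finset (Finset D.P) := fun κ => S.filter fun c =>
    ¬ (∏ p ∈ (pf D c).filter (fun p => D.nm p ≤ z κ), D.nm p) ^ A ≤ z (κ + 1)
  set S' := S.filter fun c =>
      (∀ κ, 1 ≤ κ → κ + 1 ≤ N - 1 → (∏ p ∈ (pf D c).filter (fun p => D.nm p ≤ z κ), D.nm p) ^ A ≤ z (κ + 1)) with hS'
  have hcov : S ⊆ (Finset.range (N - 1)).biUnion SE ∪ S' := by
    intro c hc
    by_cases g2 : ∀ κ, 1 ≤ κ → κ + 1 ≤ N - 1 → (∏ p ∈ (pf D c).filter (fun p => D.nm p ≤ z κ), D.nm p) ^ A ≤ z (κ + 1)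
    · exact Finset.mem_union_right _ (Finset.mem_filter.mpr ⟨hc, g2⟩)
    · simp only [not_forall] at g2
      obtain ⟨κ, h1, h2, h3⟩ := g2
      refine Finset.mem_union_left _ (Finset.mem_biUnion.mpr ⟨κ, Finset.mem_range.mpr (by omega), ?_⟩)
      exact Finset.mem_filter.mpr ⟨hc, h3⟩
  have hcard : (S.card : ℝ) ≤ (∑ κ ∈ Finset.range (N - 1), ((SE κ).card : ℝ)) + S'.card := by
    have g1 := Finset.card_le_card hcov
    have g2 := Finset.card_union_le ((Finset.range (N - 1)).biUnion SE) S'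
    have g4 := Finset.card_biUnion_le (s := Finset.range (N - 1)) (t := SE)
    have g6 : S.card ≤ (∑ κ ∈ Finset.range (N - 1), (SE κ).card) + S'.card := by omega
    exact_mod_cast g6
  have b1 : ∑ κ ∈ Finset.range (N - 1), ((SE κ).card : ℝ) ≤ X * ((N : ℝ) * (4 * A * C₁) * Real.log Y ^ (-(1 / (N : ℝ)))) := by
    have g : ∀ κ ∈ Finset.range (N - 1), ((SE κ).card : ℝ) ≤ 4 * A * C₁ * X * Real.log Y ^ (-(1 / (N : ℝ))) := by
      intro κ hκ
      have hκ' := Finset.mem_range.mp hκ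
      refine hE N A X Y κ hY3 (by omega) (by omega) (SE κ) fun c hc => ?_
      obtain ⟨g1, g2⟩ := Finset.mem_filter.mp hc
      exact ⟨(hSc c g1).1, g2⟩
    refine (Finset.sum_le_sum g).trans ?_
    rw [Finset.sum_const, Finset.card_range, nsmul_eq_mul]
    have h1 : ((N - 1 : ℕ) : ℝ) ≤ N := by exact_mod_cast Nat.sub_le N 1
    calc ((N - 1 : ℕ) : ℝ) * (4 * A * C₁ * X * Real.log Y ^ (-(1 / (N : ℝ)))) ≤ N * (4 * A * C₁ * X * Real.log Y ^ (-(1 / (N : ℝ)))) :=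
          mul_le_mul_of_nonneg_right h1 (by positivity)
      _ = _ := by ring
  have b3 : (S'.card : ℝ) ≤ X * (C₃ * Real.log Y ^ (-(δB / 2))) := by
    have g1 := main_countLt hS hsp hC he0 he1 hBTc hC' hBTRc hV (z := z) (N := N) hN0 hY3 hYX hMX
      (fun p hp => (Finset.le_sup hp).trans hYE) o₀ S' (by
      intro c hc
      obtain ⟨k1, k3⟩ := Finset.mem_filter.mp hc
      obtain ⟨k4, k5, τ, k6, k7, p, k8, k9, k10⟩ := hSc c k1
      exact ⟨k4, k5, ⟨τ, k6, k7, p, k8, k9, zz_lt99 hN0 hY3 hYN (hS.two p) k10⟩, k3⟩)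
      (W := B₀ + ((1 - δB) + 2 * k * K₀ / N) * Real.log (Real.log Y)) (by
        intro K hK
        have := sa_sum hS hV (PB := fun J => j₀ ∈ J ∧ J ≠ {j₀}) hδB.le hδB1 hCB hCM
          (fun J hJ => hTB J (hTBJ J hJ.1 hJ.2)) hMe hN0 hY3 K hK
        rw [hB₀]
        exact this)
    refine g1.trans ?_
    unfold EE
    rw [Real.exp_add, exp_ll99 hY3, mul_pow, ← Real.rpow_natCast (Real.log Y ^ e) k, ← Real.rpow_mul hLp.le]
    have g5 : Real.log Y ^ (e * k) / Real.log Y * Real.log Y ^ ((1 - δB) + 2 * k * K₀ / N) ≤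
        Real.log Y ^ (-(δB / 2)) := by
      have e1 : Real.log Y ^ (e * k) / Real.log Y = Real.log Y ^ (e * k - 1) := by
        rw [Real.rpow_sub hLp, Real.rpow_one]
      rw [e1, ← Real.rpow_add hLp]
      refine Real.rpow_le_rpow_of_exponent_le hlY ?_
      have k5 : e * k + e = δB / 4 := by
        rw [← hek]
        ring
      linarith
    rw [hC₃]
    calc (N + 3 : ℝ) ^ k * (C' * ((1 + 16 / e * (K₀ * C)) ^ k * Real.log Y ^ (e * k)) / Real.log Y * X *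
          (Real.exp B₀ * Real.log Y ^ ((1 - δB) + 2 * k * K₀ / N) * Real.exp D.Ex.card))
        = (N + 3 : ℝ) ^ k * (C' * (1 + 16 / e * (K₀ * C)) ^ k * (Real.exp B₀ * Real.exp D.Ex.card)) * X *
          (Real.log Y ^ (e * k) / Real.log Y * Real.log Y ^ ((1 - δB) + 2 * k * K₀ / N)) := by ring
      _ ≤ (N + 3 : ℝ) ^ k * (C' * (1 + 16 / e * (K₀ * C)) ^ k * (Real.exp B₀ * Real.exp D.Ex.card)) * X *
          Real.log Y ^ (-(δB / 2)) := mul_le_mul_of_nonneg_left g5 (by positivity)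
      _ = _ := by ring
  have r1 : Real.log Y ^ (-(1 / (N : ℝ))) ≤ Real.log Y ^ (-η) := rpow_le99 hY3 (by rw [hη]; exact min_le_left _ _)
  have r3 : Real.log Y ^ (-(δB / 2)) ≤ Real.log Y ^ (-η) := rpow_le99 hY3 (by rw [hη]; exact min_le_right _ _)
  have r0 : 0 < Real.log Y ^ (-η) := Real.rpow_pos_of_pos hLp _
  have s1 : (N : ℝ) * (4 * A * C₁) * Real.log Y ^ (-(1 / (N : ℝ))) ≤ (N : ℝ) * (4 * A * C₁) * Real.log Y ^ (-η) :=
    mul_le_mul_of_nonneg_left r1 (by positivity)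
  have s3 : C₃ * Real.log Y ^ (-(δB / 2)) ≤ C₃ * Real.log Y ^ (-η) := mul_le_mul_of_nonneg_left r3 hC₃0
  have s4 : (N : ℝ) * (4 * A * C₁) * Real.log Y ^ (-(1 / (N : ℝ))) + C₃ * Real.log Y ^ (-(δB / 2)) ≤
      ((N : ℝ) * (4 * A * C₁) + C₃ + 1) * Real.log Y ^ (-η) := by
    have e : ((N : ℝ) * (4 * A * C₁) + C₃ + 1) * Real.log Y ^ (-η) =
      (N : ℝ) * (4 * A * C₁) * Real.log Y ^ (-η) + C₃ * Real.log Y ^ (-η) + Real.log Y ^ (-η) := by ring
    rw [e]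
    linarith
  calc (S.card : ℝ) ≤ X * ((N : ℝ) * (4 * A * C₁) * Real.log Y ^ (-(1 / (N : ℝ)))) + X * (C₃ * Real.log Y ^ (-(δB / 2))) := by linarith
    _ = X * ((N : ℝ) * (4 * A * C₁) * Real.log Y ^ (-(1 / (N : ℝ))) + C₃ * Real.log Y ^ (-(δB / 2))) := by ring
    _ ≤ X * (((N : ℝ) * (4 * A * C₁) + C₃ + 1) * Real.log Y ^ (-η)) := mul_le_mul_of_nonneg_left s4 hX0
    _ = _ := by ring

end Pool.Agent.Helper99.TW
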