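import Pool.Agent.Helper99.TW.LevLt

/-!
# Project TW (MP_e66f84_ag), block CLt: the sum of the weights, scale by scale
-/

set_option autoImplicit false

namespace Pool.Agent.Helper99.TW

open Filter Topology Pool.Agent.Helper99.HG Pool.Agent.HG Pool.Agent.TW
open Pool.Agent.TW37 (SA)

variable {k : ℕ} {G : Type}

open Classical in
/-- the bound for the sums over the scales -/
theorem sa_sum [CommGroup G] {D : CD k G} (hS : Sys D.P D.nm) {K₀ : ℕ} (hV : ∀ p, (D.V p).card ≤ K₀)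
    {PB : Finset (Fin k) → Prop} {δ CB CM : ℝ}
    (hδ0 : 0 ≤ δ) (hδ : δ ≤ 1) (hCB : 0 ≤ CB) (hCM : 0 ≤ CM)
    (hTB : ∀ J, PB J → ∀ y x : ℕ, 2 ≤ y → y ≤ x → ∀ t : D.P → Fin k → D.ι → G,
      ∀ S : Finset D.P, (∀ p, p ∈ S ↔ p ∉ D.Ex ∧ y < D.nm p ∧ D.nm p ≤ x) →
      ∑ p ∈ S, WJt D J (t p) p / D.nm p ≤ (1 - δ) * (Real.log (Real.log x) - Real.log (Real.log y)) + CB)
    (hMe : ∀ y x : ℕ, 2 ≤ y → y ≤ x → ∀ S : Finset D.P, (∀ p ∈ S, y < D.nm p ∧ D.nm p ≤ x) →
      ∑ p ∈ S, (1 : ℝ) / D.nm p ≤ Real.log (Real.log x) - Real.log (Real.log y) + CM)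
    {N X : ℕ} (hN : 0 < N) (hX : 3 ≤ X) (K : Fin k → ℕ) (hK : ∀ κ < N, PB (Js K κ)) :
    ∃ B : ℕ → ℝ, (∀ κ < N, ∀ t : D.P → Fin k → D.ι → G, SA D (zz N X) N X K κ t ≤ B κ) ∧
      ∑ κ ∈ Finset.range N, B κ ≤ K₀ * (pr D 2).card + N * ((Real.log 4 + CB) + K₀ * (Real.log 4 + CM)) +
      ((1 - δ) + 2 * k * K₀ / N) * Real.log (Real.log X) := by
  set z := zz N X with hz
  set ℓ := Real.log (Real.log X) with hℓ
  have hℓ0 : 0 ≤ ℓ := Real.log_nonneg (log_ge_one hX)
  have hl4 : 0 ≤ Real.log 4 := Real.log_nonneg (by norm_num)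
  have hN' : (0 : ℝ) < N := by exact_mod_cast hN
  have hnm : ∀ p, (1 : ℝ) ≤ D.nm p := fun p => by
    have := hS.two p
    exact_mod_cast (by omega : 1 ≤ D.nm p)
  refine ⟨fun κ => (if κ = 0 then (K₀ * (pr D 2).card : ℝ) else 0) + ((1 - δ) * (ℓ / N) +
    (if Js K κ ≠ Js K (κ + 2) then K₀ * (ℓ / N) else 0) + ((Real.log 4 + CB) + K₀ * (Real.log 4 + CM))), ?_, ?_⟩
  · intro κ hκN t
    obtain ⟨w, hw⟩ : ∃ w : D.P → ℝ, w = fun p => ∑ o ∈ (D.V p).filter (fun o => D.cmp o ∈ Js K κ ∧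
      ∀ j ∉ Js K κ, ∀ i ∈ D.I p o j, t p j i = D.g p o i), (1 / 2 : ℝ) ^ (∑ j ∈ Js K (κ + 2), (D.I p o j).card) := ⟨_, rfl⟩
    have hw0 : ∀ p, 0 ≤ w p := fun p => by
      rw [hw]
      exact Finset.sum_nonneg fun o _ => by positivity
    have hwK : ∀ p, w p ≤ K₀ := fun p => by
      rw [hw]
      refine (Finset.sum_le_sum (g := fun _ => (1 : ℝ)) fun o _ => pow_le_one₀ (by norm_num) (by norm_num)).trans ?_
      rw [Finset.sum_const, nsmul_eq_mul, mul_one]
      exact_mod_cast (Finset.card_filter_le _ _).trans (hV p)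
    obtain ⟨Rκ, hR⟩ : ∃ Rκ, Rκ = (pr D X).filter (fun p => p ∉ D.Ex ∧ sc z N (D.nm p) = κ) := ⟨_, rfl⟩
    have hSA : SA D z N X K κ t = ∑ p ∈ Rκ, w p / D.nm p := by
      rw [hw, hR]
      rfl
    rw [hSA]
    rw [← Finset.sum_filter_add_sum_filter_not Rκ (fun p => D.nm p ≤ 2)]
    obtain ⟨R', hR'⟩ : ∃ R', R' = Rκ.filter (fun p => ¬ D.nm p ≤ 2) := ⟨_, rfl⟩
    rw [← hR']
    -- the primes of norm two
    have b0 : ∑ p ∈ Rκ.filter (fun p => D.nm p ≤ 2), w p / D.nm p ≤ if κ = 0 then (K₀ * (pr D 2).card : ℝ) else 0 := by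
      by_cases h0 : κ = 0
      · rw [if_pos h0]
        have h1 : ∑ p ∈ Rκ.filter (fun p => D.nm p ≤ 2), w p / D.nm p ≤ ∑ p ∈ Rκ.filter (fun p => D.nm p ≤ 2), (K₀ : ℝ) := by
          refine Finset.sum_le_sum fun p _ => ?_
          have := hnm p
          rw [div_le_iff₀ (by linarith)]
          have g1 := hwK p
          have g2 : (0 : ℝ) ≤ K₀ := Nat.cast_nonneg _
          nlinarith
        refine h1.trans ?_
        rw [Finset.sum_const, nsmul_eq_mul, mul_comm]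
        have h2 : Rκ.filter (fun p => D.nm p ≤ 2) ⊆ pr D 2 := fun p hp => (mem_pr hS).mpr (Finset.mem_filter.mp hp).2
        exact mul_le_mul_of_nonneg_left (by exact_mod_cast Finset.card_le_card h2) (Nat.cast_nonneg _)
      · rw [if_neg h0]
        have h1 : Rκ.filter (fun p => D.nm p ≤ 2) = ∅ := by
          rw [Finset.filter_eq_empty_iff]
          intro p hp h2
          rw [hR] at hp
          have h3 := (Finset.mem_filter.mp hp).2.2
          have h4 : z κ < D.nm p := by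
            rw [← h3]
            exact sc_pos (by rw [h3]; exact h0)
          have h5 : 2 ≤ z κ := zz_two hX
          omega
        rw [h1, Finset.sum_empty]
    have hRm : ∀ p ∈ R', p ∈ pr D X ∧ p ∉ D.Ex ∧ sc z N (D.nm p) = κ ∧ z κ < D.nm p := by
      intro p hp
      rw [hR', hR] at hp
      obtain ⟨h1, h2⟩ := Finset.mem_filter.mp hp
      obtain ⟨h3, h4, h5⟩ := Finset.mem_filter.mp h1
      refine ⟨h3, h4, h5, ?_⟩
      by_cases h0 : κ = 0
      · rw [h0, hz, zz_zero]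
        omega
      · rw [← h5]
        exact sc_pos (by rw [h5]; exact h0)
    have b1 : ∑ p ∈ R', w p / D.nm p ≤ (1 - δ) * (ℓ / N) + (if Js K κ ≠ Js K (κ + 2) then K₀ * (ℓ / N) else 0) +
        ((Real.log 4 + CB) + K₀ * (Real.log 4 + CM)) := by
      obtain ⟨T, hT⟩ : ∃ T, T = (pr D (z (κ + 1))).filter (fun p => p ∉ D.Ex ∧ z κ < D.nm p) := ⟨_, rfl⟩
      have hRT : R' ⊆ T := by
        intro p hp
        obtain ⟨h1, h2, h3, h4⟩ := hRm p hp
        rw [hT]
        refine Finset.mem_filter.mpr ⟨(mem_pr hS).mpr ?_, h2, h4⟩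
        rcases Nat.lt_or_ge (κ + 1) N with h5 | h5
        · exact sc_le (z := z) (N := N) (k := κ + 1) (by omega) (by omega)
        · have h6 : κ + 1 = N := by omega
          rw [h6, hz, zz_top hN hX]
          exact (mem_pr hS).mp h1
      have hTm : ∀ p, p ∈ T ↔ p ∉ D.Ex ∧ z κ < D.nm p ∧ D.nm p ≤ z (κ + 1) := by
        intro p
        rw [hT, Finset.mem_filter, mem_pr hS]
        tauto
      have hd := ll_diff hN hX hκN
      rw [← hz, ← hℓ] at hd
      have hzκ : 2 ≤ z κ := zz_two hX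
      have hzm : z κ ≤ z (κ + 1) := zz_mono hX (Nat.le_succ κ)
      have hd0 : 0 ≤ ℓ / N := by positivity
      have hK0 : (0 : ℝ) ≤ K₀ := Nat.cast_nonneg _
      by_cases hreg : Js K κ ≠ Js K (κ + 2)
      · rw [if_pos hreg]
        have h1 : ∑ p ∈ R', w p / D.nm p ≤ ∑ p ∈ R', K₀ * ((1 : ℝ) / D.nm p) := by
          refine Finset.sum_le_sum fun p _ => ?_
          rw [mul_one_div]
          exact div_le_div_of_nonneg_right (hwK p) (by linarith [hnm p])
        rw [← Finset.mul_sum] at h1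
        have h2 := hMe (z κ) (z (κ + 1)) hzκ hzm R' (fun p hp => ((hTm p).mp (hRT hp)).2)
        have h3 : K₀ * ∑ p ∈ R', (1 : ℝ) / D.nm p ≤ K₀ * (ℓ / N + Real.log 4 + CM) := mul_le_mul_of_nonneg_left (by linarith) hK0
        have h4 : 0 ≤ (1 - δ) * (ℓ / N) := mul_nonneg (by linarith) hd0
        have h5 : 0 ≤ Real.log 4 + CB := by linarith
        calc ∑ p ∈ R', w p / D.nm p ≤ K₀ * (ℓ / N + Real.log 4 + CM) := h1.trans h3
          _ ≤ _ := by linarith
      · rw [if_neg hreg]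
        push Not at hreg
        have h1 : ∀ p, w p = WJt D (Js K κ) (t p) p := by
          intro p
          rw [hw]
          unfold WJt
          simp only
          rw [← hreg]
        have h2 : ∑ p ∈ R', w p / D.nm p ≤ ∑ p ∈ T, WJt D (Js K κ) (t p) p / D.nm p := by
          rw [Finset.sum_congr rfl fun p _ => by rw [h1 p]]
          refine Finset.sum_le_sum_of_subset_of_nonneg hRT fun p _ _ => div_nonneg ?_ (by linarith [hnm p])
          rw [← h1 p]
          exact hw0 p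
        have h3 := hTB _ (hK κ hκN) (z κ) (z (κ + 1)) hzκ hzm t T hTm
        have h4 : (1 - δ) * (Real.log (Real.log (z (κ + 1))) - Real.log (Real.log (z κ))) ≤ (1 - δ) * (ℓ / N + Real.log 4) :=
          mul_le_mul_of_nonneg_left hd (by linarith)
        have h5 : (1 - δ) * Real.log 4 ≤ Real.log 4 := by nlinarith
        have h6 : 0 ≤ K₀ * (Real.log 4 + CM) := by positivity
        linarith
    exact add_le_add b0 b1
  · rw [Finset.sum_add_distrib, Finset.sum_add_distrib, Finset.sum_add_distrib, Finset.sum_const, Finset.sum_const,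
      Finset.card_range, nsmul_eq_mul, nsmul_eq_mul, ← Finset.sum_filter (s := Finset.range N)
        (p := fun κ => Js K κ ≠ Js K (κ + 2)), Finset.sum_const, nsmul_eq_mul,
      Finset.sum_ite_eq' (Finset.range N) 0 (fun _ => (K₀ * (pr D 2).card : ℝ)), if_pos (Finset.mem_range.mpr hN)]
    have hirr : (((Finset.range N).filter fun κ => Js K κ ≠ Js K (κ + 2)).card : ℝ) ≤ 2 * k := by exact_mod_cast irr_card K N
    have h7 : (((Finset.range N).filter fun κ => Js K κ ≠ Js K (κ + 2)).card : ℝ) * (K₀ * (ℓ / N)) ≤ 2 * k * (K₀ * (ℓ / N)) :=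
      mul_le_mul_of_nonneg_right hirr (by positivity)
    have h8 : (N : ℝ) * ((1 - δ) * (ℓ / N)) = (1 - δ) * ℓ := by field_simp
    have h9 : ((1 - δ) + 2 * k * K₀ / N) * ℓ = (1 - δ) * ℓ + 2 * k * (K₀ * (ℓ / N)) := by ring
    rw [h8, h9]
    linarith

end Pool.Agent.Helper99.TW
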